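import Pool.Agent.Y262.QE.Stm

/-!
# Project QE: the Dirichlet integral with a function on the cylinder
-/

set_option autoImplicit false
set_option linter.unusedSectionVars false

open Set Filter Topology MeasureTheory
open scoped Real ContDiff ComplexConjugate

noncomputable section

namespace Pool.Agent.Y252.QE

open Pool.Agent.Y262.QE

lemma isOpen_strip (L : ℝ) : IsOpen (Strip L) := by
  have : Strip L = Complex.re ⁻¹' Ioo 0 L := by
    ext z
    simp [Strip]
  rw [this]
  exact isOpen_Ioo.preimage Complex.continuous_re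

lemma isOpen_rec (L b : ℝ) : IsOpen (Rec L b) := by
  have : Rec L b = Complex.re ⁻¹' Ioo 0 L ∩ Complex.im ⁻¹' Ioo b (b + 2 * π) := by
    ext z
    simp [Rec]
  rw [this]
  exact (isOpen_Ioo.preimage Complex.continuous_re).inter
    (isOpen_Ioo.preimage Complex.continuous_im)

lemma rec_sub (L b : ℝ) : Rec L b ⊆ Strip L := fun _ hz => hz.1

section

variable {M : Type} [MetricSpace M] [CompactSpace M] [MeasurableSpace M] [BorelSpace M]
  {μ : Measure M} {D : Data M} {L : ℝ} {Φ : ℂ → M} {σ : M → M}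

lemma per_int (hC : D.IsCyl μ L Φ σ) (k : ℤ) (z : ℂ) : Φ (z + k * (2 * π * Complex.I)) = Φ z := by
  have h : Function.Periodic Φ (2 * π * Complex.I) := hC.per
  exact h.int_mul k z

/-- a translate of a point of the strip is in one of the two rectangles -/
lemma exists_rec (hC : D.IsCyl μ L Φ σ) {z : ℂ} (hz : z ∈ Strip L) :
    ∃ (k : ℤ) (i : Fin D.N) (b : ℝ), D.T i = Rec L b ∧
      (∀ w ∈ Rec L b, D.ψ i w = Φ w ∧ D.A i w = ContinuousLinearMap.id ℝ ℂ) ∧
      z + k * (2 * π * Complex.I) ∈ Rec L b := by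
  have hpi : (0 : ℝ) < 2 * π := by positivity
  set k : ℤ := -⌊z.im / (2 * π)⌋ with hk
  have h1 : (z + k * (2 * π * Complex.I)).re = z.re := by simp
  have h2 : (z + k * (2 * π * Complex.I)).im = z.im + k * (2 * π) := by simp
  have h3 : 0 ≤ z.im + k * (2 * π) := by
    have := Int.floor_le (z.im / (2 * π))
    rw [le_div_iff₀ hpi] at this
    rw [hk]
    push_cast
    linarith
  have h4 : z.im + k * (2 * π) < 2 * π := by
    have := Int.lt_floor_add_one (z.im / (2 * π))
    rw [div_lt_iff₀ hpi] at this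
    rw [hk]
    push_cast
    linarith
  rcases h3.eq_or_lt with h5 | h5
  · obtain ⟨i, hi, hi'⟩ := hC.chart (-π) (Or.inl rfl)
    refine ⟨k, i, -π, hi, hi', ⟨?_, ?_⟩⟩
    · rw [h1]
      exact hz
    · rw [h2, ← h5]
      constructor <;> linarith [Real.pi_pos]
  · obtain ⟨i, hi, hi'⟩ := hC.chart 0 (Or.inr rfl)
    refine ⟨k, i, 0, hi, hi', ⟨?_, ?_⟩⟩
    · rw [h1]
      exact hz
    · rw [h2]
      constructor <;> linarith

lemma contDiffOn_comp (hC : D.IsCyl μ L Φ σ) {G : M → ℝ} (hG : D.C1 G) :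
    ContDiffOn ℝ 1 (fun z => G (Φ z)) (Strip L) := by
  intro z hz
  obtain ⟨k, i, b, hT, hi, hk⟩ := exists_rec hC hz
  have h1 : ContDiffAt ℝ 1 (fun w => G (D.ψ i w)) (z + k * (2 * π * Complex.I)) := by
    refine (hG i).contDiffAt ?_
    rw [hT]
    exact (isOpen_rec L b).mem_nhds hk
  have h2 : ContDiffAt ℝ 1 (fun w : ℂ => w + (k : ℂ) * (2 * π * Complex.I)) z :=
    contDiffAt_id.add contDiffAt_const
  have h3 : ContDiffAt ℝ 1 (fun w => G (D.ψ i (w + k * (2 * π * Complex.I)))) z :=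
    ContDiffAt.comp (g := fun w => G (D.ψ i w)) z h1 h2
  refine (h3.congr_of_eventuallyEq ?_).contDiffWithinAt
  have h4 : ∀ᶠ w in 𝓝 z, w + k * (2 * π * Complex.I) ∈ Rec L b := by
    have hc : Continuous fun w : ℂ => w + (k : ℂ) * (2 * π * Complex.I) := by fun_prop
    exact hc.continuousAt.eventually ((isOpen_rec L b).mem_nhds hk)
  filter_upwards [h4] with w hw
  rw [(hi _ hw).1, per_int hC]

lemma inner_eq (a b : ℂ) : inner ℝ a b = a.re * b.re + a.im * b.im := by
  rw [Complex.inner]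
  simp
  ring

/-- the point `x` of `U i` with the coordinate `z` -/
lemma mem_chart (hS : D.IsSurf μ) {i : Fin D.N} {z : ℂ} (hz : z ∈ D.T i) :
    D.ψ i z ∈ D.U i ∧ D.φ i (D.ψ i z) = z := by
  obtain ⟨x, hx, rfl⟩ := hz
  rw [hS.left i x hx]
  exact ⟨hx, rfl⟩

/-- the inner product of the gradients vanishes where `V` vanishes near the point -/
lemma zero_of (hGr : StGr) (hS : D.IsSurf μ) {V G : M → ℝ} (hV : D.C1 V) (hG : D.C1 G) {x : M}
    (h0 : ∀ᶠ y in 𝓝 x, V y = 0) : inner ℝ (D.gr V x) (D.gr G x) = 0 := by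
  obtain ⟨i, hi⟩ := hS.cover x
  rw [((hGr M μ D hS).2.1 V G hV hG i x hi)]
  have h1 : D.φ i x ∈ D.T i := ⟨x, hi, rfl⟩
  have h2 : (fun z => V (D.ψ i z)) =ᶠ[𝓝 (D.φ i x)] fun _ => 0 := by
    have hc : ContinuousAt (D.ψ i) (D.φ i x) :=
      (hS.contψ i).continuousAt ((hS.openT i).mem_nhds h1)
    have h3 : Tendsto (D.ψ i) (𝓝 (D.φ i x)) (𝓝 x) := by
      have := hc.tendsto
      rwa [hS.left i x hi] at this
    exact h3.eventually h0
  have h4 : D.gc i V x = 0 := by
    unfold Data.gc Data.dc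
    rw [h2.fderiv_eq]
    simp [grd, Complex.ext_iff]
  rw [h4]
  simp

end

theorem cyd : StGr → StFin → StInt → StIBP → StCyi → StCyd := by
  intro hGr _ _ hIBP hCyi M _ _ _ _ μ D hS L Φ σ hC η hη m V hV hVs hV0 G hG
  obtain ⟨i0, hT, hi0⟩ := hC.chart (-π) (Or.inl rfl)
  obtain ⟨hΦc, hSo, hΦm, hmap⟩ := hCyi M μ D hS L Φ σ hC
  -- the support
  have hzero : ∀ x, x ∉ Φ '' Strip L → inner ℝ (D.gr V x) (D.gr G x) = 0 := by
    intro x hx
    refine zero_of hGr hS hV hG ?_
    set K0 : Set ℂ := {z | z.re ∈ tsupport η ∧ z.im ∈ Icc (-π) π} with hK0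
    have hKc : IsCompact K0 := by
      have h1 : K0 = (tsupport η) ×ℂ (Icc (-π) π) := by
        ext z
        simp [hK0, Complex.mem_reProdIm]
      rw [h1]
      exact hη.2.1.isCompact.reProdIm isCompact_Icc
    have hKS : K0 ⊆ Strip L := fun z hz => hη.2.2 hz.1
    have hcl : IsClosed (Φ '' K0) := (hKc.image_of_continuousOn (hΦc.mono hKS)).isClosed
    have hx' : x ∉ Φ '' K0 := fun h => hx (image_mono hKS h)
    have h2 : ∀ y, y ∉ Φ '' K0 → V y = 0 := by
      intro y hy
      by_cases hyS : y ∈ Φ '' Strip L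
      · obtain ⟨z, hz, rfl⟩ := hyS
        rw [hVs z hz]
        unfold Vf
        by_contra hne
        apply hy
        have hη0 : η z.re ≠ 0 := fun h => hne (by rw [h, zero_mul])
        -- translate into [-π, π]
        obtain ⟨k, hk1, hk2⟩ : ∃ k : ℤ, -π ≤ z.im + k * (2 * π) ∧ z.im + k * (2 * π) ≤ π := by
          have hpi : (0 : ℝ) < 2 * π := by positivity
          refine ⟨-⌊(z.im + π) / (2 * π)⌋, ?_, ?_⟩
          · have := Int.floor_le ((z.im + π) / (2 * π))
            rw [le_div_iff₀ hpi] at this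
            push_cast
            linarith
          · have := Int.lt_floor_add_one ((z.im + π) / (2 * π))
            rw [div_lt_iff₀ hpi] at this
            push_cast
            linarith
        refine ⟨z + k * (2 * π * Complex.I), ⟨?_, ?_⟩, per_int hC k z⟩
        · have : (z + k * (2 * π * Complex.I)).re = z.re := by simp
          rw [this]
          exact subset_tsupport η hη0
        · have : (z + k * (2 * π * Complex.I)).im = z.im + k * (2 * π) := by simp
          rw [this]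
          exact ⟨hk1, hk2⟩
      · exact hV0 y hyS
    filter_upwards [hcl.isOpen_compl.mem_nhds hx'] with y hy
    exact h2 y hy
  have hmeas : Measurable fun x => (inner ℝ (D.gr V x) (D.gr G x) : ℝ) :=
    (((hGr M μ D hS).1 V hV).2.1).inner (((hGr M μ D hS).1 G hG).2.1)
  rw [← setIntegral_eq_integral_of_forall_compl_eq_zero hzero, ← hmap,
    integral_map hΦm hmeas.aestronglyMeasurable]
  have hper : ∀ z, G (Φ (z + 2 * π * Complex.I)) = G (Φ z) := fun z => by rw [hC.per z]
  have hibp := hIBP L (fun z => G (Φ z)) η m hC.pos (contDiffOn_comp hC hG) hper hη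
  rw [← hibp]
  refine setIntegral_congr_fun (isOpen_rec L (-π)).measurableSet fun z hz => ?_
  have hzT : z ∈ D.T i0 := by rw [hT]; exact hz
  obtain ⟨hU, hφ⟩ := mem_chart hS hzT
  have hψ : D.ψ i0 z = Φ z := (hi0 z hz).1
  rw [hψ] at hU hφ
  have hnh : Rec L (-π) ∈ 𝓝 z := (isOpen_rec L (-π)).mem_nhds hz
  have e1 : (fun w => V (D.ψ i0 w)) =ᶠ[𝓝 z] Vf η m := by
    filter_upwards [hnh] with w hw
    rw [(hi0 w hw).1, hVs w (rec_sub L _ hw)]
  have e2 : (fun w => G (D.ψ i0 w)) =ᶠ[𝓝 z] fun w => G (Φ w) := by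
    filter_upwards [hnh] with w hw
    rw [(hi0 w hw).1]
  show inner ℝ (D.gr V (Φ z)) (D.gr G (Φ z)) = _
  rw [(hGr M μ D hS).2.1 V G hV hG i0 (Φ z) hU, inner_eq]
  unfold Data.gc Data.dc
  rw [hφ, e1.fderiv_eq, e2.fderiv_eq, (hi0 z hz).2]
  simp [grd]

end Pool.Agent.Y252.QE
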